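import Pool.Agent.helper93.TV.Spec2

namespace Pool.Agent.helper93.TV

open BigOperators Finset Matrix Filter Topology

variable {I V : Type} [Fintype I] [DecidableEq I] [Fintype V] [DecidableEq V]

theorem OO_ext {D : FD I V} {X : Finset I} {c : V → V → V → V → ℂ} {m : ℕ} {bp : I → List V}
    {J : V → List V → ℂ} (h : D.JS X c m bp J) :
    ext m (fun β p => J β p.1) = J := by
  funext β p
  unfold ext
  by_cases hp : p ∈ lists V m
  · rw [dif_pos hp]
  · rw [dif_neg hp]
    by_contra hne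
    exact hp (h.supp β p (fun h0 => hne h0.symm)).1

theorem OO_bd {D : FD I V} {X : Finset I} {c : V → V → V → V → ℂ} {m : ℕ} {bp : I → List V}
    {J : V → List V → ℂ} (h : D.JS X c m bp J) (β : V) (p : List V) (hp : p ∈ lists V m) :
    ‖J β p‖ ≤ 1 := by
  have h1 := h.orth β β rfl rfl
  rw [if_pos rfl] at h1
  have h2 : ∑ q ∈ lists V m, ‖J β q‖ ^ 2 = 1 := by
    have h3 : ((∑ q ∈ lists V m, ‖J β q‖ ^ 2 : ℝ) : ℂ) = 1 := by
      rw [← h1]
      push_cast
      refine Finset.sum_congr rfl fun q _ => ?_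
      have h4 : J β q * star (J β q) = ((Complex.normSq (J β q) : ℝ) : ℂ) :=
        Complex.mul_conj (J β q)
      rw [h4, Complex.normSq_eq_norm_sq]
      push_cast
      rfl
    exact_mod_cast h3
  have h5 : ‖J β p‖ ^ 2 ≤ ∑ q ∈ lists V m, ‖J β q‖ ^ 2 :=
    Finset.single_le_sum (f := fun q => ‖J β q‖ ^ 2) (fun q _ => sq_nonneg _) hp
  rw [h2] at h5
  nlinarith [norm_nonneg (J β p)]

theorem OO : OO_stmt := by
  intro hRig _ hPC _ _ _ _ hSU hSP hSG hSJ _ _ _ _ _ _ _ hPO hCT _ _ hRK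
    I V _ _ _ _ D X m bp F hm hcnt hbase hF
  -- the flat variety is closed
  have hcl : IsClosed (D.FV X m) := by
    obtain ⟨f, _, _, hf⟩ := hPO I V D X m
    have h1 : D.FV X m = (fun x => MvPolynomial.eval x f) ⁻¹' {0} := by
      ext x
      exact (hf x).symm
    rw [h1]
    exact isClosed_singleton.preimage (MvPolynomial.continuous_eval f)
  obtain ⟨hCT1, hCT2⟩ := hCT I V D X m bp
  apply IsSeqClosed.isClosed
  intro xs x hxs hx
  have hxFV : x ∈ D.FV X m := hcl.mem_of_tendsto hx (Eventually.of_forall fun k => (hxs k).1)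
  refine ⟨hxFV, ?_⟩
  rintro ⟨hflat, J, hJ, hform⟩
  obtain ⟨U, hU, hUJ⟩ := hRK I V D X m bp hm hcnt hbase x hxFV ⟨J, hJ⟩
  have hev : ∀ᶠ k in atTop, xs k ∈ U := hx hU
  obtain ⟨k₀, hk₀⟩ := eventually_atTop.1 hev
  -- bases along the sequence
  have hch : ∀ k, ∃ J', D.JS X (D.cof X (xs (k₀ + k))) m bp J' := fun k =>
    hUJ _ ⟨hk₀ _ (Nat.le_add_right _ _), (hxs _).1⟩
  choose Js hJs using hch
  let js : ℕ → V → (lists V m) → ℂ := fun k β p => Js k β p.1
  have hcomp : IsCompact (Metric.closedBall (0 : V → (lists V m) → ℂ) 1) :=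
    isCompact_closedBall _ _
  have hmem : ∀ k, js k ∈ Metric.closedBall (0 : V → (lists V m) → ℂ) 1 := by
    intro k
    rw [mem_closedBall_zero_iff, pi_norm_le_iff_of_nonneg zero_le_one]
    intro β
    rw [pi_norm_le_iff_of_nonneg zero_le_one]
    intro p
    exact OO_bd (hJs k) β p.1 p.2
  obtain ⟨j', _, φ, hφ, hlim⟩ := hcomp.tendsto_subseq hmem
  have hxφ : Tendsto (fun k => xs (k₀ + φ k)) atTop (𝓝 x) :=
    hx.comp (tendsto_atTop_mono (fun k => Nat.le_add_left _ _) hφ.tendsto_atTop)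
  have hjp : ∀ β (p : lists V m), Tendsto (fun k => js (φ k) β p) atTop (𝓝 (j' β p)) := by
    intro β p
    have h1 := (continuous_apply p).tendsto (j' β)
    have h2 := (continuous_apply β).tendsto j'
    exact h1.comp (h2.comp hlim)
  have hJp : ∀ β p, Tendsto (fun k => Js (φ k) β p) atTop (𝓝 (ext m j' β p)) := by
    intro β p
    by_cases hp : p ∈ lists V m
    · have h1 := hjp β ⟨p, hp⟩
      have h2 : ext m j' β p = j' β ⟨p, hp⟩ := dif_pos hp
      rw [h2]
      exact h1
    · have h2 : ext m j' β p = 0 := dif_neg hp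
      rw [h2]
      have h3 : ∀ k, Js (φ k) β p = 0 := by
        intro k
        by_contra hne
        exact hp ((hJs (φ k)).supp β p hne).1
      simp only [h3]
      exact tendsto_const_nhds
  -- the limit is a basis
  have hJ' : D.JS X (D.cof X x) m bp (ext m j') := by
    refine ⟨?_, ?_, ?_⟩
    · intro β p hne
      have h1 : ∀ᶠ k in atTop, Js (φ k) β p ≠ 0 := (hJp β p).eventually_ne hne
      obtain ⟨k, hk⟩ := h1.exists
      exact (hJs (φ k)).supp β p hk
    · intro β β' h1 h2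
      have h3 : Tendsto (fun k => ∑ p ∈ lists V m, Js (φ k) β p * star (Js (φ k) β' p)) atTop
          (𝓝 (∑ p ∈ lists V m, ext m j' β p * star (ext m j' β' p))) :=
        tendsto_finsetSum _ fun p _ => (hJp β p).mul ((hJp β' p).star)
      have h4 : ∀ k, ∑ p ∈ lists V m, Js (φ k) β p * star (Js (φ k) β' p) =
          if β = β' then 1 else 0 := fun k => (hJs (φ k)).orth β β' h1 h2
      simp only [h4] at h3
      exact tendsto_nhds_unique h3 tendsto_const_nhds |>.symm ▸ rfl
    · intro a b p q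
      have h3 : Tendsto (fun k => ∑ β ∈ univ.filter (fun β => D.s1 β = a ∧ D.s2 β = b),
          star (Js (φ k) β p) * Js (φ k) β q) atTop
          (𝓝 (∑ β ∈ univ.filter (fun β => D.s1 β = a ∧ D.s2 β = b),
            star (ext m j' β p) * ext m j' β q)) :=
        tendsto_finsetSum _ fun β _ => ((hJp β p).star).mul (hJp β q)
      have h4 : ∀ k, ∑ β ∈ univ.filter (fun β => D.s1 β = a ∧ D.s2 β = b),
          star (Js (φ k) β p) * Js (φ k) β q =
          D.Phi X (D.cof X (xs (k₀ + φ k))) m m m (mu (bp b) (bp b)) a p q :=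
        fun k => (hJs (φ k)).comp a b p q
      simp only [h4] at h3
      have h5 : Tendsto (fun k => D.Phi X (D.cof X (xs (k₀ + φ k))) m m m
          (mu (bp b) (bp b)) a p q) atTop
          (𝓝 (D.Phi X (D.cof X x) m m m (mu (bp b) (bp b)) a p q)) :=
        ((hCT1 m m (mu (bp b) (bp b)) a p q).tendsto x).comp hxφ
      exact tendsto_nhds_unique h3 h5
  obtain ⟨u, hu, hJu⟩ := hSJ I V D X (D.cof X x) m bp (ext m j') J hJ' hJ
  -- convergence of the reconstructed symbols
  have hfk : ∀ α γ β δ, Tendsto (fun k => D.form X (D.cof X (xs (k₀ + φ k))) m bp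
      (Js (φ k)) α γ β δ) atTop
      (𝓝 (D.form X (D.cof X x) m bp (ext m j') α γ β δ)) := by
    intro α γ β δ
    have h1 : ∀ k, D.form X (D.cof X (xs (k₀ + φ k))) m bp (Js (φ k)) α γ β δ =
        D.form X (D.cof X (xs (k₀ + φ k))) m bp (ext m (js (φ k))) α γ β δ := by
      intro k
      rw [OO_ext (hJs (φ k))]
    have hz := hxφ.prodMk_nhds hlim
    have h2 := Filter.Tendsto.comp ((hCT2 α γ β δ).tendsto (x, j')) hz
    exact Filter.Tendsto.congr (fun k => (h1 k).symm) h2
  have hact : ∀ α γ β δ, Tendsto (fun k => act u (D.form X (D.cof X (xs (k₀ + φ k))) m bp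
      (Js (φ k))) α γ β δ) atTop (𝓝 (F α γ β δ)) := by
    intro α γ β δ
    have h1 : F = act u (D.form X (D.cof X x) m bp (ext m j')) := by
      rw [← (hSG I V D X (D.cof X x) m bp (ext m j') u hJ' hu).2, ← hJu, hform]
    rw [h1]
    unfold act
    refine tendsto_finsetSum _ fun α' _ => tendsto_finsetSum _ fun γ' _ =>
      tendsto_finsetSum _ fun β' _ => tendsto_finsetSum _ fun δ' _ => ?_
    exact (((hfk α' γ' β' δ').const_mul (u α α' * u γ γ')).mul_const (star (u β β'))).mul_const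
      (star (u δ δ'))
  obtain ⟨ε, hε, hrig⟩ := hRig I V D F hF
  have hclose : ∀ᶠ k in atTop, ∀ α γ β δ, ‖act u (D.form X (D.cof X (xs (k₀ + φ k))) m bp
      (Js (φ k))) α γ β δ - F α γ β δ‖ < ε := by
    rw [eventually_all]; intro α
    rw [eventually_all]; intro γ
    rw [eventually_all]; intro β
    rw [eventually_all]; intro δ
    have h1 := Metric.tendsto_nhds.1 (hact α γ β δ) ε hε
    filter_upwards [h1] with k hk
    rwa [dist_eq_norm] at hk
  obtain ⟨k, hk⟩ := hclose.exists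
  -- contradiction
  set y := xs (k₀ + φ k) with hy
  have hyflat : D.Flat X (D.cof X y) m := (hxs (k₀ + φ k)).1
  have hctx : D.Ctx X (D.cof X y) m bp := ⟨hyflat, hcnt, hbase, hm⟩
  have hcalc := hPC I V D X (D.cof X y) m hyflat hcnt
  obtain ⟨hJ1, hform1⟩ := hSG I V D X (D.cof X y) m bp (Js (φ k)) u (hJs (φ k)) hu
  have hUF : D.UF (act u (D.form X (D.cof X y) m bp (Js (φ k)))) := by
    rw [← hform1]
    exact ⟨hSU I V D X (D.cof X y) m bp _ hctx hcalc hJ1,
      hSP I V D X (D.cof X y) m bp _ hctx hcalc hJ1⟩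
  obtain ⟨v, hv, hFv⟩ := hrig _ hUF hk
  obtain ⟨hJ2, hform2⟩ := hSG I V D X (D.cof X y) m bp _ v hJ1 hv
  refine (hxs (k₀ + φ k)).2 ⟨hyflat, _, hJ2, ?_⟩
  rw [hform2, hform1, ← hFv]

end Pool.Agent.helper93.TV
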